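import Pool.Agent.R278.GurWCG

/-!
# A non-separable weakly compactly generated Gurarii space

Answer to Q1 and Q2 of MP_40d550_an: yes.  The space is the closed subspace of the bounded
functions on the first uncountable ordinal built by helper268 for another problem.  Its natural
basis vectors are divided into countably many levels, and the vectors of one level span an
isometric copy of the space of null families.  Hence the basis vectors of one level together
with zero are weakly compact, and scaling the levels down gives one weakly compact set with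
dense span.
-/

open Set Filter Topology

namespace Pool.Agent.Results.MP_40d550_an.NonseparableWCGGurarii

/-- `E` is a Gurarii space: for all finite-dimensional `X ⊆ Y`, every isometric embedding
`f : X → E` and every `ε > 0` there is a linear `g : Y → E` with `g|X = f` and
`(1+ε)⁻¹ ‖y‖ ≤ ‖g y‖ ≤ (1+ε) ‖y‖`. -/
def IsGurarii (E : Type) [NormedAddCommGroup E] [NormedSpace ℝ E] : Prop :=
  ∀ (Y : Type) [NormedAddCommGroup Y] [NormedSpace ℝ Y] [FiniteDimensional ℝ Y]
    (X : Submodule ℝ Y) (f : X →ₗᵢ[ℝ] E) (ε : ℝ), 0 < ε →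
    ∃ g : Y →ₗ[ℝ] E, (∀ y : Y, (1 + ε)⁻¹ * ‖y‖ ≤ ‖g y‖ ∧ ‖g y‖ ≤ (1 + ε) * ‖y‖) ∧
      ∀ x : X, g x = f x

/-- `E` is weakly compactly generated: some weakly compact set has dense linear span. -/
def IsWCG (E : Type) [NormedAddCommGroup E] [NormedSpace ℝ E] : Prop :=
  ∃ K : Set E, IsCompact (toWeakSpace ℝ E '' K) ∧
    Dense ((Submodule.span ℝ K : Submodule ℝ E) : Set E)

/-- `E` is weakly Lindelöf determined: for some set `Γ` there is a one-to-one linear map from
the dual of `E` into the countably supported functions on `Γ`, continuous from the weak-star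
topology to the product topology. -/
def IsWLD (E : Type) [NormedAddCommGroup E] [NormedSpace ℝ E] : Prop :=
  ∃ (Γ : Type) (T : WeakDual ℝ E →ₗ[ℝ] (Γ → ℝ)), Function.Injective T ∧ Continuous T ∧
    ∀ f, {γ | T f γ ≠ 0}.Countable

theorem gurarii_of_approx {E : Type} [NormedAddCommGroup E] [NormedSpace ℝ E]
    (h : ∀ ε : ℝ, 0 < ε → ε ≤ 1 → ∀ (F : Type) [NormedAddCommGroup F] [NormedSpace ℝ F]
      [FiniteDimensional ℝ F] (D : Submodule ℝ F) (e : D →ₗᵢ[ℝ] E),
      ∃ f : F →ₗ[ℝ] E, (∀ y : F, (1 + ε)⁻¹ * ‖y‖ ≤ ‖f y‖ ∧ ‖f y‖ ≤ (1 + ε) * ‖y‖) ∧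
        ∀ a : D, ‖f a - e a‖ ≤ ε * ‖a‖) : IsGurarii E := by
  intro Y _ _ _ X f ε hε
  obtain ⟨P, hP⟩ : ∃ P : Y →ₗ[ℝ] X, ∀ x : X, P x = x := by
    obtain ⟨q, hq⟩ := X.exists_isCompl
    exact ⟨X.projectionOnto q hq, X.projectionOnto_apply_left hq⟩
  let Pc : Y →L[ℝ] X := LinearMap.toContinuousLinearMap P
  have hPc : ∀ y, ‖P y‖ ≤ ‖Pc‖ * ‖y‖ := fun y => Pc.le_opNorm y
  have hPn : 0 ≤ ‖Pc‖ := Pc.opNorm_nonneg
  -- choose the small parameter
  have hgap : 0 < 1 - (1 + ε)⁻¹ := by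
    rw [sub_pos]
    exact inv_lt_one_of_one_lt₀ (by linarith)
  obtain ⟨η, hη, hη1, hη2, hη3⟩ : ∃ η : ℝ, 0 < η ∧ η ≤ 1 ∧ η + η * ‖Pc‖ ≤ ε ∧
      (1 + ε)⁻¹ ≤ (1 + η)⁻¹ - η * ‖Pc‖ := by
    let m := min ε (1 - (1 + ε)⁻¹)
    have hm : 0 < m := lt_min hε hgap
    refine ⟨min 1 (m / (1 + ‖Pc‖)), lt_min one_pos (by positivity), min_le_left _ _, ?_, ?_⟩
    · have h1 : min 1 (m / (1 + ‖Pc‖)) ≤ m / (1 + ‖Pc‖) := min_le_right _ _
      have h2 : min 1 (m / (1 + ‖Pc‖)) * (1 + ‖Pc‖) ≤ m := by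
        rwa [le_div_iff₀ (by positivity)] at h1
      have h3 : m ≤ ε := min_le_left _ _
      nlinarith
    · have h1 : min 1 (m / (1 + ‖Pc‖)) ≤ m / (1 + ‖Pc‖) := min_le_right _ _
      have h2 : min 1 (m / (1 + ‖Pc‖)) * (1 + ‖Pc‖) ≤ m := by
        rwa [le_div_iff₀ (by positivity)] at h1
      have h3 : m ≤ 1 - (1 + ε)⁻¹ := min_le_right _ _
      have h4 : 0 < min 1 (m / (1 + ‖Pc‖)) := lt_min one_pos (by positivity)
      generalize min 1 (m / (1 + ‖Pc‖)) = η at *
      have h5 : 1 - η ≤ (1 + η)⁻¹ := by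
        rw [← one_div, le_div_iff₀ (by positivity)]
        nlinarith
      nlinarith
  obtain ⟨g, hg1, hg2⟩ := h η hη hη1 Y X f
  let G : Y →ₗ[ℝ] E := g + (f.toLinearMap - g ∘ₗ X.subtype) ∘ₗ P
  have hG : ∀ y, G y = g y + (f (P y) - g (P y)) := fun y => rfl
  have hd : ∀ y, ‖f (P y) - g (P y)‖ ≤ η * ‖Pc‖ * ‖y‖ := by
    intro y
    rw [norm_sub_rev]
    calc ‖g (P y) - f (P y)‖ ≤ η * ‖P y‖ := hg2 (P y)
      _ ≤ η * (‖Pc‖ * ‖y‖) := mul_le_mul_of_nonneg_left (hPc y) hη.le
      _ = η * ‖Pc‖ * ‖y‖ := by ring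
  refine ⟨G, fun y => ⟨?_, ?_⟩, ?_⟩
  · have h1 : ‖g y‖ ≤ ‖G y‖ + ‖f (P y) - g (P y)‖ := by
      have : g y = G y - (f (P y) - g (P y)) := by
        rw [hG, add_sub_cancel_right]
      calc ‖g y‖ = ‖G y - (f (P y) - g (P y))‖ := by rw [← this]
        _ ≤ ‖G y‖ + ‖f (P y) - g (P y)‖ := norm_sub_le _ _
    have h2 := (hg1 y).1
    have h3 := mul_le_mul_of_nonneg_right hη3 (norm_nonneg y)
    rw [sub_mul] at h3
    linarith [hd y]
  · have h1 : ‖G y‖ ≤ ‖g y‖ + ‖f (P y) - g (P y)‖ := by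
      rw [hG]
      exact norm_add_le _ _
    have h2 := (hg1 y).2
    have h3 := mul_le_mul_of_nonneg_right hη2 (norm_nonneg y)
    rw [add_mul] at h3
    have h4 := hd y
    nlinarith
  · intro x
    rw [hG, hP]
    abel

/-- There is a non-separable Gurarii space which is weakly compactly generated and weakly
Lindelöf determined. -/
theorem result : ∃ (E : Type) (_ : NormedAddCommGroup E) (_ : NormedSpace ℝ E),
    CompleteSpace E ∧ IsGurarii E ∧ ¬ TopologicalSpace.SeparableSpace E ∧ IsWCG E ∧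
      IsWLD E := by
  obtain ⟨B, hB⟩ := R268.Gur.exists_rich
  refine ⟨R268.Gur.XS B, inferInstance, inferInstance, ?_, ?_, ?_, ?_, ?_⟩
  · exact (Submodule.isClosed_topologicalClosure (R268.Gur.V0 B)).completeSpace_coe
  · apply gurarii_of_approx
    intro ε hε hε1 F _ _ _ D e
    exact R268.Gur.gurarii_aux B hB D e hε hε1
  · intro hsep
    obtain ⟨D, hDc, hDd⟩ := hsep.exists_countable_dense
    have h1 := R268.Gur.mk_le_of_dense B hDd
    have h2 := Cardinal.le_aleph0_iff_set_countable.2 hDc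
    exact absurd (h1.trans h2) (not_le.2 Cardinal.aleph0_lt_aleph_one)
  · exact ⟨_, R278.GurWCG.isCompact_weak B, R278.GurWCG.dense_span_compact B⟩
  · refine ⟨R268.Gur.Om,
      { toFun := fun f α => f (R268.Gur.vecX B α)
        map_add' := fun f g => rfl
        map_smul' := fun c f => rfl }, ?_, ?_, ?_⟩
    · intro f g hfg
      have h1 : WeakDual.toStrongDual f - WeakDual.toStrongDual g = 0 := by
        apply R278.GurWCG.eq_zero_of_vecX B
        intro α
        have h2 := congrFun hfg α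
        exact sub_eq_zero.2 h2
      have h3 := sub_eq_zero.1 h1
      exact WeakDual.toStrongDual.injective h3
    · apply continuous_pi
      intro α
      exact WeakDual.eval_continuous _
    · intro f
      exact R278.GurWCG.countable_support B (WeakDual.toStrongDual f)

end Pool.Agent.Results.MP_40d550_an.NonseparableWCGGurarii
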